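import Pool.Agent.Q50.HY.Two

/-!
# The hyperbolic analytic subspace conjecture at points with algebraic coordinates

Let `o` be a special point of a Hermitian symmetric domain `X` of a Shimura variety. The tangent space
`T_o X` has a geometric and an arithmetic structure over the field of algebraic numbers, and it is the
direct sum of lines which are rational for both. In coordinates, indexed by a finite set `A`: the
geometric structure consists of the vectors with algebraic coordinates `v a`, and the arithmetic
structure of the vectors for which all `lam a * v a` are algebraic. The special points `z` of the
bounded domain in `T_o X` have algebraic coordinates. We determine when Q1 holds at such a point: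
`V` contains a subspace through `z` which is rational for both structures, for all subspaces `V`
through `z` which are rational for the arithmetic structure, if and only if every linear relation
with algebraic coefficients between the numbers `lam a * z a` is a sum of such relations between
numbers with algebraic quotients of the factors `lam a`.
-/

set_option maxHeartbeats 4000000
set_option synthInstance.maxHeartbeats 400000

namespace Pool.Agent.Results.MP_1e27bd_ag.AlgebraicPoints

open Pool.Agent.Q50.HY

/-- **Q1 at the points with algebraic coordinates.** For all nonzero factors `lam a` and all `z` with
algebraic coordinates: Q1 holds at `z` for all subspaces `V` if and only if all linear relations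
between the numbers `lam a * z a` split. -/
theorem result (A : Type) [Fintype A] (lam z : A → ℂ) (h : ∀ a, lam a ≠ 0) (hz : z ∈ geometric A) :
    HoldsAt lam z ↔ OnlyTrivialRelations lam fun a => lam a * z a :=
  holdsAt_iff h hz

end Pool.Agent.Results.MP_1e27bd_ag.AlgebraicPoints
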