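import Pool.Agent.Q207.HS.Rat
import Pool.Agent.Y120.H.Fml

/-!
# The hyperbolic analytic subspace conjecture at almost all integral points of families of abelian varieties

Let `S` be a product of moduli spaces `A_{g_i}` of principally polarised abelian varieties, `X` the product of the Siegel spaces, `o` any
point of `X` and `𝒟 ⊆ T_o X` the Harish-Chandra realisation of `X`. The conjecture says: if `z ∈ 𝒟` and the point of `S` below `z` is
algebraic, then every subspace `V` of `T_o X` which contains `z` and is rational for the arithmetic structure has a subspace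
which contains `z` and is rational for the arithmetic and for the geometric structure.

Let `A_{i,x}`, `i ≤ k`, be families of principally polarised abelian varieties over open parts of the line over `ℚ`, near any rational
point `x = 0`, where they may degenerate, with full symplectic monodromy. We prove: for almost all integral points `t` and for ALL
points `z` of `𝒟` above the points of `S` which belong to `(A_{1,1/t_1}, …, A_{k,1/t_k})`, and to all varieties which correspond to them
under the Hecke correspondences, the only subspace of `T_o X` which contains `z` and is rational over a field of degree at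
most `D` is `T_o X` itself. Here rationality refers to ANY basis of `T_o X`, in particular to the bases of the arithmetic structure.
-/

set_option autoImplicit false

open PowerSeries

namespace Pool.Agent.Results.MP_1e27bd_ag.IntegralPointsOfFamilies

/-! ### Families of G-functions -/

/-- an integer polynomial as a power series with rational coefficients -/
noncomputable def toQ (P : Polynomial ℤ) : PowerSeries ℚ := ((P.map (Int.castRingHom ℚ) : Polynomial ℚ) : PowerSeries ℚ)

/-- the power series `P(u^e)` -/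
noncomputable def atPow (e : ℕ) (P : Polynomial ℤ) : PowerSeries ℂ :=
  ((Polynomial.expand ℂ e (P.map (Int.castRingHom ℂ)) : Polynomial ℂ) : PowerSeries ℂ)

/-- the matrices `G_s` over `ℤ[x]` with `T^s y^(s) = G_s y` for all solutions `y` of `T y' = A y` -/
noncomputable def iter {r : ℕ} (T : Polynomial ℤ) (A : Fin r → Fin r → Polynomial ℤ) : ℕ → Fin r → Fin r → Polynomial ℤ
  | 0 => fun i j => if i = j then 1 else 0
  | s + 1 => fun i j => T * Polynomial.derivative (iter T A s i j) + ∑ l, iter T A s i l * A l j -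
      (s : Polynomial ℤ) * (Polynomial.derivative T * iter T A s i j)

/-- The system `T y' = A y` has a fundamental matrix of solutions of the form `u^(-M) ∑_n Φ_n(u) (log u)^n` with
`u^e = x` and convergent power series `Φ_n`: the point `0` is regular or a regular singularity with rational
exponents. -/
def QuasiUnipotent {r : ℕ} (T : Polynomial ℤ) (A : Fin r → Fin r → Polynomial ℤ) : Prop :=
  ∃ (e M : ℕ) (K : ℝ) (Φ : Matrix (Fin r) (Fin r) (Polynomial (PowerSeries ℂ))), 1 ≤ e ∧ Φ.det ≠ 0 ∧
    (∀ i j n m, ‖coeff m ((Φ i j).coeff n)‖ ≤ K ^ (m + 1)) ∧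
    ∀ i j n, atPow e T * (X * PowerSeries.derivative ℂ ((Φ i j).coeff n) +
        ((n : PowerSeries ℂ) + 1) * (Φ i j).coeff (n + 1) - (M : PowerSeries ℂ) * (Φ i j).coeff n) =
      (e : PowerSeries ℂ) * X ^ e * ∑ l, atPow e (A i l) * (Φ l j).coeff n

/-- `h_1, ..., h_r` are G-functions with rational coefficients which solve the differential system `T y' = A y`, with
the conditions of Siegel and Galochkin, and `0` is a regular point or a regular singularity with rational exponents of
the system. -/
structure GFamily {r : ℕ} (T : Polynomial ℤ) (A : Fin r → Fin r → Polynomial ℤ) (h : Fin r → PowerSeries ℚ) : Prop where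
  /-- the denominator is not zero -/
  T_ne : T ≠ 0
  /-- the differential equations -/
  ode : ∀ i, toQ T * PowerSeries.derivative ℚ (h i) = ∑ j, toQ (A i j) * h j
  /-- the coefficients have geometric growth -/
  size : ∃ C : ℝ, ∀ i m, |((coeff m (h i) : ℚ) : ℝ)| ≤ C ^ (m + 1)
  /-- the common denominators of the coefficients have geometric growth -/
  den : ∃ C : ℝ, ∀ m : ℕ, ∃ d : ℕ, 0 < d ∧ (d : ℝ) ≤ C ^ (m + 1) ∧ ∀ i, ∀ j ≤ m, ∃ a : ℤ, (d : ℚ) * coeff j (h i) = a
  /-- Galochkin's condition: the common denominators of the matrices `G_s / s!` have geometric growth -/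
  galochkin : ∃ C : ℝ, ∀ m : ℕ, ∃ d : ℕ, 0 < d ∧ (d : ℝ) ≤ C ^ (m + 1) ∧ ∀ s ≤ m, ∀ i j,
    ∃ H : Polynomial ℤ, (d : Polynomial ℤ) * iter T A s i j = (s.factorial : Polynomial ℤ) * H
  /-- the local exponents at `0` are rational and the singularity is regular -/
  regular : QuasiUnipotent T A

/-! ### Periods and monodromy -/

section family
variable {r g : ℕ}

/-- The periods at the point `x = 1 / y`. The rows belong to a symplectic basis `a_1, …, a_g, b_1, …, b_g` of the homology, the columns
to a basis `ω_1, …, ω_g` of the forms; the entries are the polynomials `P a c` in `log y` and in the `h_l(1 / y)`. -/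
noncomputable def periods (h : Fin r → PowerSeries ℚ) (P : (Fin g ⊕ Fin g) → Fin g → MvPolynomial (Option (Fin r)) ℂ) (y : ℝ) :
    Matrix (Fin g ⊕ Fin g) (Fin g) ℂ :=
  Matrix.of fun a c => MvPolynomial.aeval (fun o : Option (Fin r) => o.elim ((Real.log y : ℝ) : ℂ)
    fun l => ((∑' m : ℕ, ((coeff m (h l) : ℚ) : ℝ) * (1 / y) ^ m : ℝ) : ℂ)) (P a c)

/-- the value at `x = 1 / y` and at the matrix `Z` of a polynomial in the entries of a matrix over `ℂ[x]` -/
noncomputable def relAt (R : MvPolynomial ((Fin g ⊕ Fin g) × Fin g) (Polynomial ℂ)) (y : ℝ) (Z : Matrix (Fin g ⊕ Fin g) (Fin g) ℂ) : ℂ :=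
  MvPolynomial.eval₂ (Polynomial.evalRingHom (1 / (y : ℂ))) (fun v => Z v.1 v.2) R

/-- the rational matrix `u`, acting on the homology, preserves all polynomial relations over `ℂ[x]` between the periods -/
def Preserves (h : Fin r → PowerSeries ℚ) (P : (Fin g ⊕ Fin g) → Fin g → MvPolynomial (Option (Fin r)) ℂ)
    (u : Matrix (Fin g ⊕ Fin g) (Fin g ⊕ Fin g) ℚ) : Prop :=
  ∀ R : MvPolynomial ((Fin g ⊕ Fin g) × Fin g) (Polynomial ℂ), (∀ᶠ y : ℝ in Filter.atTop, relAt R y (periods h P y) = 0) →
    ∀ᶠ y : ℝ in Filter.atTop, relAt R y ((u.map fun q : ℚ => (q : ℂ)) * periods h P y) = 0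

/-- `g > 0` and all rational points of the symplectic group preserve all relations between the periods. This is so if the
monodromy group of the family is Zariski dense in the symplectic group, because relations are preserved by analytic
continuation. -/
def FullSymplectic (h : Fin r → PowerSeries ℚ) (P : (Fin g ⊕ Fin g) → Fin g → MvPolynomial (Option (Fin r)) ℂ) : Prop :=
  0 < g ∧ ∀ u ∈ Matrix.symplecticGroup (Fin g) ℚ, Preserves h P u

/-- a rational symplectic similitude with positive factor -/
def IsSimilitude (γ : Matrix (Fin g ⊕ Fin g) (Fin g ⊕ Fin g) ℚ) : Prop :=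
  ∃ m : ℚ, 0 < m ∧ γ * Matrix.J (Fin g) ℚ * γ.transpose = m • Matrix.J (Fin g) ℚ

/-- the Siegel upper half space -/
structure IsSiegel (Z : Matrix (Fin g) (Fin g) ℂ) : Prop where
  symm : Z.transpose = Z
  pos : (Z.map Complex.im).PosDef

/-- The point `τ` of the Siegel space belongs to the periods `M` with respect to the basis `γ (a_1, …, b_g)` of the homology: the
periods of the `b`-cycles are invertible and the periods of the `a`-cycles are `τ` times the periods of the `b`-cycles. -/
structure IsPoint (γ : Matrix (Fin g ⊕ Fin g) (Fin g ⊕ Fin g) ℚ) (M : Matrix (Fin g ⊕ Fin g) (Fin g) ℂ)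
    (τ : Matrix (Fin g) (Fin g) ℂ) : Prop where
  siegel : IsSiegel τ
  det : (((γ.map fun q : ℚ => (q : ℂ)) * M).submatrix Sum.inr id).det ≠ 0
  eq : ((γ.map fun q : ℚ => (q : ℂ)) * M).submatrix Sum.inl id = τ * ((γ.map fun q : ℚ => (q : ℂ)) * M).submatrix Sum.inr id

/-- The Harish-Chandra coordinate of `τ` in the tangent space at `o`, with the coordinates `dτ_{a b}`:
`Y - Y (τ - \bar o)⁻¹ Y` with `Y = o - \bar o` (for `g = 1`, `o = i` it is `2 i (τ - i) / (τ + i)`). -/
noncomputable def harishChandra (o τ : Matrix (Fin g) (Fin g) ℂ) : Matrix (Fin g) (Fin g) ℂ :=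
  (o - o.map (starRingEnd ℂ)) - (o - o.map (starRingEnd ℂ)) * (τ - o.map (starRingEnd ℂ))⁻¹ * (o - o.map (starRingEnd ℂ))

end family

/-! ### The tangent space -/

/-- The tangent space of the product of the Siegel spaces: tuples of symmetric matrices. `Q207.HS.Tg g` is the subspace
`{z | ∀ i, (z i)ᵀ = z i}` of the space of tuples of matrices. -/
def Tangent {k : ℕ} (g : Fin k → ℕ) : Type := Q207.HS.Tg g

noncomputable instance addCommGroup {k : ℕ} (g : Fin k → ℕ) : AddCommGroup (Tangent g) :=
  inferInstanceAs (AddCommGroup (Q207.HS.Tg g))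

noncomputable instance module {k : ℕ} (g : Fin k → ℕ) : Module ℂ (Tangent g) :=
  inferInstanceAs (Module ℂ (Q207.HS.Tg g))

/-- the matrices of a tangent vector -/
def coord {k : ℕ} {g : Fin k → ℕ} (z : Tangent g) (i : Fin k) : Matrix (Fin (g i)) (Fin (g i)) ℂ := z.1 i

/-- the subspace `V` is spanned by vectors whose coordinates with respect to the basis `b` are in the field `K` -/
def IsRational {T ι : Type} [AddCommGroup T] [Module ℂ T] (K : IntermediateField ℚ ℂ) (b : Module.Basis ι ℂ T)
    (V : Submodule ℂ T) : Prop :=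
  V ≤ Submodule.span ℂ {x | x ∈ V ∧ ∀ j, b.repr x j ∈ K}

section main
variable {k n : ℕ} {r g : Fin k → ℕ}

/-- The vector `z` of the tangent space at `o` is the Harish-Chandra coordinate of a point of the product of the Siegel spaces above a
point of the moduli space which belongs to the fibres at `1 / t_i`, or to abelian varieties with the rational homology bases
`γ_i (a_1, …, b_g)`, `γ_i` similitudes. -/
def IsAbove (h : ∀ i, Fin (r i) → PowerSeries ℚ) (P : ∀ i, (Fin (g i) ⊕ Fin (g i)) → Fin (g i) → MvPolynomial (Option (Fin (r i))) ℂ)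
    (o : ∀ i, Matrix (Fin (g i)) (Fin (g i)) ℂ) (t : Fin k → ℕ) (z : Tangent g) : Prop :=
  ∃ (γ : ∀ i, Matrix (Fin (g i) ⊕ Fin (g i)) (Fin (g i) ⊕ Fin (g i)) ℚ) (τ : ∀ i, Matrix (Fin (g i)) (Fin (g i)) ℂ), ∀ i,
    IsSimilitude (γ i) ∧ IsPoint (γ i) (periods (h i) (P i) (t i : ℝ)) (τ i) ∧ coord z i = harishChandra (o i) (τ i)

/-- The property of the point `1 / t`: the only subspace of the tangent space at `o` which is rational with respect to `b` over a field
of degree at most `D` and contains a vector above the point `1 / t` is the whole tangent space. -/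
def OnlyWholeSpace (D : ℕ) (h : ∀ i, Fin (r i) → PowerSeries ℚ)
    (P : ∀ i, (Fin (g i) ⊕ Fin (g i)) → Fin (g i) → MvPolynomial (Option (Fin (r i))) ℂ) (o : ∀ i, Matrix (Fin (g i)) (Fin (g i)) ℂ)
    (b : Module.Basis (Fin n) ℂ (Tangent g)) (t : Fin k → ℕ) : Prop :=
  ∀ K : IntermediateField ℚ ℂ, FiniteDimensional ℚ K → Module.finrank ℚ K ≤ D → ∀ V : Submodule ℂ (Tangent g), IsRational K b V →
    ∀ z ∈ V, IsAbove h P o t z → V = ⊤

/-- in every box `∏ (x_i, x_i + N]` the set `E` has at most `C N^(k-1) ∑ (1 + N / (x_i + N)^c)` elements -/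
def Rare (c C : ℝ) (E : Set (Fin k → ℕ)) : Prop :=
  ∀ (x : Fin k → ℕ) (N : ℕ), 1 ≤ N → (({t : Fin k → ℕ | (∀ i, x i < t i ∧ t i ≤ x i + N) ∧ t ∈ E}.ncard : ℕ) : ℝ) ≤
    C * (N : ℝ) ^ (k - 1) * ∑ i, (1 + N / ((x i : ℝ) + N) ^ c)

end main

theorem iter_eq {r : ℕ} (T : Polynomial ℤ) (A : Fin r → Fin r → Polynomial ℤ) (s : ℕ) :
    iter T A s = Pool.Agent.Y120.GH.itm T A s := by
  induction s with
  | zero => rfl
  | succ s ih =>
    funext i j
    rw [iter, Pool.Agent.Y120.GH.itm, ih]

theorem qu_eq {r : ℕ} {T : Polynomial ℤ} {A : Fin r → Fin r → Polynomial ℤ} (h : QuasiUnipotent T A) :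
    Pool.Agent.Y120.GH.QU0 T A := by
  obtain ⟨e, M, K, Φ, he, hdet, hc, heq⟩ := h
  have he0 : e ≠ 0 := by omega
  refine ⟨e, he0, M, K, Φ, hc, fun i j n => ?_, hdet⟩
  have h1 := heq i j n
  simp only [atPow] at h1
  rw [Pool.Agent.Y120.GH.expand_poly he0]
  simp only [Pool.Agent.Y120.GH.expand_poly he0]
  exact h1

theorem fam {r : ℕ} {T : Polynomial ℤ} {A : Fin r → Fin r → Polynomial ℤ} {h : Fin r → PowerSeries ℚ}
    (hG : GFamily T A h) (δ : ℕ) : Pool.Agent.Y120.R.Fam δ h :=
  ⟨hG.size, Pool.Agent.Y120.GH.family_main hG.T_ne hG.ode hG.size hG.den (by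
    obtain ⟨C, hC⟩ := hG.galochkin
    refine ⟨C, fun m => ?_⟩
    obtain ⟨d, h1, h2, h3⟩ := hC m
    refine ⟨d, h1, h2, fun s hs i' j' => ?_⟩
    rw [← iter_eq]
    exact h3 s hs i' j') (qu_eq hG.regular) δ⟩

/-- Let `h_i`, `i ≤ k`, be families of G-functions over `ℚ` (with the conditions of Siegel and Galochkin, regular singular with
rational exponents at `0`). For all `e`, `g` and `D` there are `c > 0` and `C` such that for all period matrices `P_i` (polynomials of
degree at most `e`, with complex coefficients, in `log x` and the `h_{i,l}(x)`) with full symplectic symmetry, for all points `o` of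
the product of the Siegel spaces, all bases `b` of the tangent space at `o`, and all boxes `∏ (x_i, x_i + N]` all but
`C N^(k-1) ∑ (1 + N / (x_i + N)^c)` integral points `t` of the box have the property `OnlyWholeSpace`. -/
theorem result (k e D : ℕ) (r g : Fin k → ℕ) (T : Fin k → Polynomial ℤ) (A : ∀ i, Fin (r i) → Fin (r i) → Polynomial ℤ)
    (h : ∀ i, Fin (r i) → PowerSeries ℚ) (hG : ∀ i, GFamily (T i) (A i) (h i)) :
    ∃ c C : ℝ, 0 < c ∧ ∀ P : ∀ i, (Fin (g i) ⊕ Fin (g i)) → Fin (g i) → MvPolynomial (Option (Fin (r i))) ℂ,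
      (∀ i a b, (P i a b).totalDegree ≤ e) → (∀ i, FullSymplectic (h i) (P i)) →
      ∀ o : ∀ i, Matrix (Fin (g i)) (Fin (g i)) ℂ, (∀ i, IsSiegel (o i)) →
      ∀ (n : ℕ) (b : Module.Basis (Fin n) ℂ (Tangent g)), Rare c C {t | ¬ OnlyWholeSpace D h P o b t} := by
  classical
  obtain ⟨c, C, hc, -, hmain⟩ := Q207.HS.good_count (g := g) (n := Module.finrank ℂ (Q207.HS.Tg g)) D e h fun i δ => fam (hG i) δ
  refine ⟨c, C, hc, fun P hP hfull o ho n b x N hN => ?_⟩
  obtain rfl : n = Module.finrank ℂ (Q207.HS.Tg g) := by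
    have h1 := Module.finrank_eq_card_basis b
    rw [Fintype.card_fin] at h1
    exact h1.symm
  set E := {t : Fin k → ℕ | (∀ i, x i < t i ∧ t i ≤ x i + N) ∧ t ∈ {t | ¬ OnlyWholeSpace D h P o b t}} with hE
  have hfin : E.Finite := by
    refine (Set.finite_Iic (fun i : Fin k => x i + N)).subset ?_
    intro t ht i
    exact (ht.1 i).2
  rw [Set.ncard_eq_toFinset_card E hfin]
  refine hmain P hP (fun i => (o i).map (starRingEnd ℂ)) (fun i => o i - (o i).map (starRingEnd ℂ)) (Q207.HS.lamb b) x N hN _
    fun t ht => ?_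
  obtain ⟨hbox, hbad⟩ := hfin.mem_toFinset.1 ht
  refine ⟨hbox, fun hgood => hbad ?_⟩
  intro K hKf hKD V hV z hzV hz
  obtain ⟨γ, τ, hz⟩ := hz
  have := hKf
  by_contra hVt
  obtain ⟨c', hc', hcV⟩ := Q207.HS.exists_form K b hV hVt
  refine hc' (Q207.HS.concl hgood (fun i => (hfull i).1) (fun i u hu => (hfull i).2 u hu) (fun i => (ho i).symm) (fun i => (ho i).pos)
    (fun i => (hz i).1) (fun i => (hz i).2.1.siegel.symm) (fun i => (hz i).2.1.siegel.pos) (fun i => (hz i).2.1.det)
    (fun i => (hz i).2.1.eq) K hKD c' z (fun i => (hz i).2.2) (hcV z hzV))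

end Pool.Agent.Results.MP_1e27bd_ag.IntegralPointsOfFamilies
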