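import Pool.Agent.Q50.HY.Two

/-!
# The hyperbolic analytic subspace conjecture: equations which are products of linear forms

Let `o` be a special point of the Siegel space (a Shimura variety in `A_g`). In coordinates the
tangent space in `o` has the geometric structure of the vectors with algebraic coordinates, and the
arithmetic structure of the vectors `v` for which all `(θ i * θ j / π) * v (i, j)` are algebraic,
where `θ 1, ..., θ g` are the holomorphic periods. We study Q1 at the points `z` with algebraic
coordinates; the special points are such points.

Under the theorem of Wüstholz for the numbers `θ i` the assertion holds for all `z` and all subspaces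
`V` defined by equations which give products of two linear forms, and for all `V` if the nonzero
entries of `z` are in one row and the corresponding column. The second condition holds for the special
points of a Shimura variety of a unitary group of signature `(n, 1)` which contains `o`.
-/

set_option maxHeartbeats 4000000
set_option synthInstance.maxHeartbeats 400000

namespace Pool.Agent.Results.MP_1e27bd_ag.ProductsOfLinearForms

open Pool.Agent.Q50.HY

/-- **Products of linear forms.** Let `θ 1, ..., θ g` be nonzero such that all linear relations
between the `θ i` split (Wüstholz), and let `z` have algebraic coordinates.

(1) Q1 holds at `z` for all subspaces `V` through `z` defined by equations `c` for which the quadratic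
form with the coefficients `c s * z s` is a product of two linear forms with algebraic coefficients.

(2) If the nonzero entries of `z` are in one row and the corresponding column, then Q1 holds at `z` for
all `V`. -/
theorem result (g : ℕ) (θ : Fin g → ℂ) (z : Fin g × Fin g → ℂ) (h : ∀ i, θ i ≠ 0)
    (hz : z ∈ geometric (Fin g × Fin g)) (hW : OnlyTrivialRelations θ θ) :
    (∀ (C : Set (Fin g × Fin g → ℂ)) (V : Submodule ℂ (Fin g × Fin g → ℂ)),
      (∀ c ∈ C, IsProduct c z) → IsDefinedBy (siegel θ) C V → z ∈ V →
        HasBiRational (siegel θ) V z) ∧
    (InOneRow z → HoldsAt (siegel θ) z) :=
  ⟨fun _ _ hC hV hzV => hasBiRational_of_products h hW hz hC hV hzV,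
    fun hr => holdsAt_of_row h hW hz hr⟩

end Pool.Agent.Results.MP_1e27bd_ag.ProductsOfLinearForms
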