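import Pool.Agent.Q50.HY.Two

/-!
# The hyperbolic analytic subspace conjecture: two periods

Let `o` be a special point of the Siegel space (a Shimura variety in `A_g`). In coordinates the
tangent space in `o` has the geometric structure of the vectors with algebraic coordinates, and the
arithmetic structure of the vectors `v` for which all `(θ i * θ j / π) * v (i, j)` are algebraic,
where `θ 1, ..., θ g` are the holomorphic periods. We study Q1 at the points `z` with algebraic
coordinates; the special points are such points. Unconditionally the assertion holds for all `V` if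
the periods which occur in `z` are algebraic multiples of two of them, in particular for all these
points if `g = 2`. This does not need the theorem of Wüstholz.
-/

set_option maxHeartbeats 4000000
set_option synthInstance.maxHeartbeats 400000

namespace Pool.Agent.Results.MP_1e27bd_ag.TwoPeriods

open Pool.Agent.Q50.HY

/-- **Two periods.** Let `θ 1, ..., θ g` be nonzero and let `z` have algebraic coordinates.

(1) If the `θ i` which occur in `z` are algebraic multiples of two of the periods, then Q1 holds at `z`
for all `V`.

(2) If `g = 2`, then Q1 holds at `z` for all `V`. -/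
theorem result (g : ℕ) (θ : Fin g → ℂ) (z : Fin g × Fin g → ℂ) (h : ∀ i, θ i ≠ 0)
    (hz : z ∈ geometric (Fin g × Fin g)) :
    (InTwoClasses θ z → HoldsAt (siegel θ) z) ∧ (g = 2 → HoldsAt (siegel θ) z) := by
  refine ⟨fun ht => holdsAt_of_two h hz ht, fun hg => ?_⟩
  subst hg
  refine holdsAt_of_two h hz ⟨0, 1, fun i j _ => ?_⟩
  have key : ∀ k : Fin 2, θ k / θ 0 ∈ Qbar ∨ θ k / θ 1 ∈ Qbar := by
    intro k
    fin_cases k
    · exact Or.inl (rel_refl h 0)
    · exact Or.inr (rel_refl h 1)
  exact ⟨key i, key j⟩

end Pool.Agent.Results.MP_1e27bd_ag.TwoPeriods
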